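import Pool.Agent.Helper49.NF.Goals

set_option autoImplicit false

namespace Pool.Agent.Helper40.NF

open Finset
open Pool.Agent.Helper49.NF
open Pool.Agent.Helper47.SR (Grp mv lev wt Ew W IsInv up dn StarAt HalfStarAt)

theorem card_le_W {n : ℕ} (G : Grp n) (F : Finset (Finset (Fin n))) : #F ≤ W G F := by
  unfold W
  rw [Finset.card_eq_sum_ones]
  exact Finset.sum_le_sum fun A _ => Nat.le_add_right 1 _

theorem card_lev (n m : ℕ) : #(lev n m) = n.choose m := by
  rw [Finset.card_powersetCard, Finset.card_univ, Fintype.card_fin]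

/-- the sum `Mb` against the bound of its terms -/
theorem Mb_le (n f j B t : ℕ)
    (h : ∀ p r, p + 2 * r ≤ j → t * (f.choose p * (n / 2).choose r) ≤ B) :
    t * Mb n f j ≤ (j + 1) ^ 2 * B := by
  unfold Mb
  rw [Finset.mul_sum]
  have h1 : ∀ p ∈ range (j + 1), t * (∑ r ∈ range (j + 1),
      if p + 2 * r ≤ j then f.choose p * (n / 2).choose r else 0) ≤ (j + 1) * B := by
    intro p _
    rw [Finset.mul_sum]
    have h2 : ∀ r ∈ range (j + 1),
        t * (if p + 2 * r ≤ j then f.choose p * (n / 2).choose r else 0) ≤ B := by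
      intro r _
      split_ifs with h3
      · exact h p r h3
      · rw [mul_zero]
        exact Nat.zero_le _
    have h4 := Finset.sum_le_card_nsmul (range (j + 1)) _ B h2
    rw [Finset.card_range, smul_eq_mul] at h4
    exact h4
  have h5 := Finset.sum_le_card_nsmul (range (j + 1)) _ ((j + 1) * B) h1
  rw [Finset.card_range, smul_eq_mul] at h5
  refine le_trans h5 (le_of_eq ?_)
  ring

/-- **R1B.** -/
theorem goal_R1B (hEJ : Goal_EJ) (hNS : Goal_NS) (hRED : Goal_RED) (hCLS : Goal_CLS)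
    (hCMB : Goal_CMB) (hN1B : Goal_N1B) (hN1D : Goal_N1D) : Goal_R1B := by
  obtain ⟨n1, h1⟩ := hN1B
  obtain ⟨n2, h2⟩ := hN1D
  refine ⟨n1 + n2, fun n hn K f G hG hK hf m hm1 hm2 => ?_⟩
  have hn1 := hG.n1
  have hK1 := hG.K1
  have hm : 1 ≤ m := by
    rcases Nat.eq_zero_or_pos m with h0 | h0
    · exfalso
      rw [h0, zero_pow (by norm_num)] at hm1
      omega
    · exact h0
  obtain ⟨h, hh⟩ : ∃ h, h = 8 * K * Lg n := ⟨_, rfl⟩
  obtain ⟨z, hz⟩ : ∃ z, z = n / (4 * h ^ 2) := ⟨_, rfl⟩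
  obtain ⟨a1, a2, a3, a4, a5, a6, a7, a8, a9⟩ :=
    h1 n (by omega) m K f h z hm hm2 hK1 hK hf hh hz
  have hmn : m ≤ n := le_trans a2 a3
  obtain ⟨b1, b2⟩ := h2 n (by omega) m K h hm1 hmn hK1 hK hh
  have hKn : 0 < K * n := Nat.mul_pos hK1 hn1
  have ht : 0 < 2 ^ m := by positivity
  -- the total excess of the levels m, m+1
  have hE : ∀ j, j ≤ m + 1 → 2 ^ m * Ew G (lev n j) ≤ K * n * ((n + 2) ^ 2 * (n * z.choose m)) := by
    intro j hj
    have c1 := (hEJ n K f G hG j).2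
    have c2 := Mb_le n f j (n * z.choose m) (2 ^ m) (fun p r hpr =>
      hCMB n m z f p r hm a2 a3 a4 a5 a6 (le_trans hpr hj))
    have c3 : (j + 1) ^ 2 ≤ (n + 2) ^ 2 := Nat.pow_le_pow_left (by omega) 2
    calc 2 ^ m * Ew G (lev n j) ≤ 2 ^ m * (K * n * Mb n f j) := Nat.mul_le_mul_left _ c1
      _ = K * n * (2 ^ m * Mb n f j) := by ring
      _ ≤ K * n * ((j + 1) ^ 2 * (n * z.choose m)) := Nat.mul_le_mul_left _ c2
      _ ≤ K * n * ((n + 2) ^ 2 * (n * z.choose m)) :=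
          Nat.mul_le_mul_left _ (Nat.mul_le_mul_right _ c3)
  obtain ⟨E, hEd⟩ : ∃ E, E = K * n * ((n + 2) ^ 2 * (n * z.choose m)) := ⟨_, rfl⟩
  have hE1 := hE m (by omega)
  have hE2 := hE (m + 1) le_rfl
  rw [← hEd] at hE1 hE2
  have hb : 2 * (n + 1) * E ≤ 2 ^ m * z.choose m := by
    calc 2 * (n + 1) * E = 2 * (n + 1) * (K * n * (n + 2) ^ 2 * n) * z.choose m := by
          rw [hEd]; ring
      _ ≤ 2 ^ m * z.choose m := Nat.mul_le_mul_right _ b1
  have hTT : 2 * TT G m ≤ z.choose m := by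
    refine Nat.le_of_mul_le_mul_left ?_ ht
    calc 2 ^ m * (2 * TT G m)
        = 2 * ((m + 1) * (2 ^ m * Ew G (lev n (m + 1))) + (n - m) * (2 ^ m * Ew G (lev n m))) := by
          unfold TT; ring
      _ ≤ 2 * ((m + 1) * E + (n - m) * E) := by
          refine Nat.mul_le_mul_left _ (Nat.add_le_add ?_ ?_)
          · exact Nat.mul_le_mul_left _ hE2
          · exact Nat.mul_le_mul_left _ hE1
      _ = 2 * (n + 1) * E := by
          rw [← add_mul, show m + 1 + (n - m) = n + 1 by omega]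
          ring
      _ ≤ 2 ^ m * z.choose m := hb
  have hEm : n * Ew G (lev n m) ≤ 2 * n.choose m := by
    have d1 : n * Ew G (lev n m) ≤ z.choose m := by
      refine Nat.le_of_mul_le_mul_left ?_ ht
      calc 2 ^ m * (n * Ew G (lev n m)) = n * (2 ^ m * Ew G (lev n m)) := by ring
        _ ≤ n * E := Nat.mul_le_mul_left _ hE1
        _ ≤ 2 * (n + 1) * E := Nat.mul_le_mul_right _ (by omega)
        _ ≤ 2 ^ m * z.choose m := hb
    have d2 : z.choose m ≤ n.choose m := Nat.choose_le_choose m a3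
    omega
  refine hRED n K f m G hG hm a9 hEm ?_
  intro S Y hF hd hS hlt
  have hYz : #Y ≤ z.choose m := by
    have e1 := card_le_W G Y
    have e2 := hF.lt
    omega
  have hSn : #S ≤ n.choose m := by
    rw [← card_lev n m]
    exact Finset.card_le_card hF.S1
  have hNN : ∀ j, 1 ≤ j → j ≤ m + 1 → 64 * Nn G j (h + 1) ≤ W G S := by
    intro j hj1 hj2
    have e1 := (hNS n K f G hG j (h + 1) (by omega) hj1 (by omega)).1
    have e2 : (n + 1) ^ (K * j / (h + 1)) ≤ (n + 1) ^ (K * (m + 1) / (h + 1)) :=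
      Nat.pow_le_pow_right (Nat.succ_pos _) (Nat.div_le_div_right (Nat.mul_le_mul_left _ hj2))
    have e3 : Nn G j (h + 1) ≤ (K * n) ^ (h + 2) * (n + 1) ^ (K * (m + 1) / (h + 1)) :=
      le_trans e1 (Nat.mul_le_mul_left _ e2)
    have e4 : K * n * (64 * Nn G j (h + 1)) ≤ K * n * W G S := by
      calc K * n * (64 * Nn G j (h + 1)) = 64 * (K * n * Nn G j (h + 1)) := by ring
        _ ≤ 64 * (K * n * ((K * n) ^ (h + 2) * (n + 1) ^ (K * (m + 1) / (h + 1)))) :=
            Nat.mul_le_mul_left _ (Nat.mul_le_mul_left _ e3)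
        _ ≤ 2 ^ (m + 1) := b2
        _ ≤ K * n * W G S := hS.le
    exact Nat.le_of_mul_le_mul_left e4 hKn
  refine hCLS n m h (z - m) m G S Y hm a9 a1 hF ?_ ?_ (hNN m hm (by omega))
    (hNN (m + 1) (by omega) le_rfl) ?_ ?_
  · rw [show n - m + m = n by omega, Nat.choose_symm hmn]
    exact hSn
  · rw [show m + (z - m) = z by omega]
    exact hYz
  · have e1 : 64 * (h * (m + 1) * (h * (z - m))) + h * (m + 1) * (m + 1) =
        (64 * h ^ 2 * (z - m) + h * (m + 1)) * (m + 1) := by ring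
    have e2 : 64 * h ^ 2 * (z - m) ≤ 64 * h ^ 2 * z := Nat.mul_le_mul_left _ (Nat.sub_le _ _)
    rw [e1]
    calc (64 * h ^ 2 * (z - m) + h * (m + 1)) * (m + 1)
        ≤ (64 * h ^ 2 * z + h * (m + 1)) * (m + 1) :=
          Nat.mul_le_mul_right _ (Nat.add_le_add_right e2 _)
      _ ≤ 63 * (n - m) * (m + 1) := Nat.mul_le_mul_right _ a7
      _ = 63 * ((n - m) * (m + 1)) := by ring
  · calc 65 * (h * (m + 1) * (m + 1)) = 65 * (h * (m + 1)) * (m + 1) := by ring
      _ ≤ 63 * (n - m) * (m + 1) := Nat.mul_le_mul_right _ a8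
      _ = 63 * ((n - m) * (m + 1)) := by ring

end Pool.Agent.Helper40.NF
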